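import Pool.Agent.Lib_MP_38b588_al.Linear

/-!
Q1 of MP_38b588_al for linear groups over commutative Noetherian rings.
-/

set_option autoImplicit false

namespace Pool.Agent.Results.MP_38b588_al.Linear

open Pool.Agent.Lib_MP_38b588_al

/-- Let `w` be any word and let `G` be an infinite group in `V^#` which has a faithful
representation by invertible `d × d` matrices over a commutative Noetherian ring (for instance a
field).  Then `w = 1` is a law of `G`. -/
theorem result {n : ℕ} (w : FreeGroup (Fin n)) (G : Type*) [Group G] (hG : InSharp w G)
    (hinf : Infinite G) (R : Type*) [CommRing R] [IsNoetherianRing R] (d : ℕ)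
    (φ : G →* (Matrix (Fin d) (Fin d) R)ˣ) (hφ : Function.Injective φ) : IsLaw w G := by
  intro a
  by_contra ha
  exact not_verballyDiscrete_of_linear φ hφ (verballyDiscrete_of_inSharp w hG a ha)

end Pool.Agent.Results.MP_38b588_al.Linear
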