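import Pool.Agent.Lib_MP_38b588_al.Solv

/-!
Q1 of MP_38b588_al for all groups in which every finite subset normalizes arbitrarily large
solvable subgroups.  This covers all infinite locally solvable groups, all groups with an infinite
solvable normal subgroup, and all groups in which the centralizer of every finite subset has
arbitrarily large solvable subgroups.
-/

set_option autoImplicit false

namespace Pool.Agent.Results.MP_38b588_al.LocallySolvable

open Pool.Agent.Lib_MP_38b588_al

/-- Let `w` be any word and let `G` be in `V^#`.  Suppose that for every finite subset `S` of `G`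
and every `N` there is a solvable subgroup `T` of `G` which is normalized by `S` and is infinite or
of order greater than `N`.  Then `w = 1` is a law of `G`. -/
theorem result {n : ℕ} (w : FreeGroup (Fin n)) (G : Type*) [Group G] (hG : InSharp w G)
    (h : ∀ (S : Finset G) (N : ℕ), ∃ T : Subgroup G, Group.IsSolvable T ∧
      (∀ s ∈ S, s ∈ Subgroup.normalizer (T : Set G)) ∧ (Infinite T ∨ N < Nat.card T)) :
    IsLaw w G := by
  intro a
  by_contra ha
  have hV := verballyDiscrete_of_inSharp w hG a ha
  obtain ⟨S, N, hN⟩ := solvable_bounded_of_verballyDiscrete hV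
  obtain ⟨T, hT1, hT2, hT3⟩ := h S N
  obtain ⟨hfin, hc⟩ := hN T hT1 hT2
  rcases hT3 with hT3 | hT3
  · exact not_finite T
  · omega

/-- special case: infinite locally solvable groups -/
theorem of_locallySolvable {n : ℕ} (w : FreeGroup (Fin n)) (G : Type*) [Group G] [Infinite G]
    (hG : InSharp w G) (hs : ∀ H : Subgroup G, H.FG → Group.IsSolvable H) : IsLaw w G := by
  classical
  apply result w G hG
  intro S N
  obtain ⟨F, hF⟩ := Infinite.exists_subset_card_eq G (N + 1)
  refine ⟨Subgroup.closure ((S ∪ F : Finset G) : Set G), hs _ ⟨S ∪ F, rfl⟩, ?_, ?_⟩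
  · intro s hs
    exact Subgroup.le_normalizer (Subgroup.subset_closure (by simp [hs]))
  · rw [or_iff_not_imp_left, not_infinite_iff_finite]
    intro hfin
    have hinj : Function.Injective (fun x : F =>
        (⟨x.1, Subgroup.subset_closure (by simp)⟩ :
          Subgroup.closure ((S ∪ F : Finset G) : Set G))) := by
      intro x y hxy
      exact Subtype.ext (congrArg (fun t => (t.1 : G)) hxy)
    have h2 := Nat.card_le_card_of_injective _ hinj
    have h3 : Nat.card F = F.card := by simp
    omega

/-- special case: groups with an infinite solvable normal subgroup -/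
theorem of_normal_solvable {n : ℕ} (w : FreeGroup (Fin n)) (G : Type*) [Group G]
    (hG : InSharp w G) (R : Subgroup G) [R.Normal] [Infinite R] [hs : Group.IsSolvable R] :
    IsLaw w G := by
  apply result w G hG
  intro S N
  refine ⟨R, hs, fun s _ => ?_, Or.inl inferInstance⟩
  rw [Subgroup.normalizer_eq_top]
  exact Subgroup.mem_top s

end Pool.Agent.Results.MP_38b588_al.LocallySolvable
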