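import Pool.Agent.Lib_MP_38b588_al.Greedy

/-!
Q1 of MP_38b588_al for groups (and sections of groups) which are not verbally discrete, in
particular for all groups with a non-discrete Hausdorff group topology.
-/

set_option autoImplicit false

namespace Pool.Agent.Results.MP_38b588_al.NonDiscrete

open Pool.Agent.Lib_MP_38b588_al

/-- `V^#` is closed under sections -/
lemma inSharp_section {n : ℕ} {w : FreeGroup (Fin n)} {G : Type*} [Group G] (hG : InSharp w G)
    (H : Subgroup G) {K : Type*} [Group K] (φ : H →* K) (hφ : Function.Surjective φ) :
    InSharp w K := by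
  intro X hX
  obtain ⟨x, hx, hx1⟩ := hG (fun i => Subtype.val '' (φ ⁻¹' (X i))) (by
    intro i
    apply Set.Infinite.image Subtype.val_injective.injOn
    intro hfin
    apply hX i
    have : X i = φ '' (φ ⁻¹' (X i)) := (Set.image_preimage_eq _ hφ).symm
    rw [this]
    exact hfin.image _)
  choose y hy hyx using hx
  refine ⟨fun i => φ (y i), fun i => hy i, ?_⟩
  have h1 : FreeGroup.lift y w = 1 := by
    have h2 : H.subtype (FreeGroup.lift y w) = FreeGroup.lift x w := by
      have : H.subtype.comp (FreeGroup.lift y) = FreeGroup.lift x := by
        apply FreeGroup.ext_hom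
        intro i
        simpa using hyx i
      exact DFunLike.congr_fun this w
    rw [hx1] at h2
    exact Subtype.ext h2
  have h3 : φ (FreeGroup.lift y w) = FreeGroup.lift (fun i => φ (y i)) w := by
    have : φ.comp (FreeGroup.lift y) = FreeGroup.lift (fun i => φ (y i)) := by
      apply FreeGroup.ext_hom
      intro i; simp
    exact DFunLike.congr_fun this w
  rw [← h3, h1, map_one]

/-- Let `G` be in `V^#` and let `K` be a section of `G` (a quotient of a subgroup).  If `1` is not
isolated in the verbal topology of `K`, for instance if `K` has a non-discrete Hausdorff group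
topology, then `w = 1` is a law of `K`. -/
theorem result {n : ℕ} (w : FreeGroup (Fin n)) (G : Type*) [Group G] (hG : InSharp w G)
    (H : Subgroup G) (K : Type*) [Group K] (φ : H →* K) (hφ : Function.Surjective φ)
    (hK : ¬ VerballyDiscrete K ∨
      ∃ τ : TopologicalSpace K, IsTopologicalGroup K ∧ T2Space K ∧ ¬ DiscreteTopology K) :
    IsLaw w K := by
  have hV : ¬ VerballyDiscrete K := by
    rcases hK with h | ⟨τ, h1, h2, h3⟩
    · exact h
    · intro hV
      exact h3 (discreteTopology_of_verballyDiscrete hV)
  intro a
  by_contra ha
  exact hV (verballyDiscrete_of_inSharp w (inSharp_section hG H φ hφ) a ha)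

end Pool.Agent.Results.MP_38b588_al.NonDiscrete
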